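import Pool.Agent.Q169.ZD.Stm

/-! # Job ANA of project ZD: an identity theorem for exponential sums in the denominators -/

set_option autoImplicit false

namespace Pool.Agent.V5helper4.ZD

open Pool.Agent.Q169.ZD

theorem t_ANA : S_ANA := by
  intro I G _ U a b σ ha hb hU h t
  obtain ⟨η, hη, h0⟩ := h
  have hf : AnalyticOnNhd ℝ (fun t : ℝ => ∑ j, σ j / ∑ u ∈ U j, a u * b u ^ t) Set.univ := by
    intro x _
    refine Finset.analyticAt_fun_sum _ fun j _ => ?_
    refine AnalyticAt.div analyticAt_const
      (Finset.analyticAt_fun_sum _ fun u _ => analyticAt_const.mul ?_) ?_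
    · have : (fun t : ℝ => b u ^ t) = fun t => Real.exp (Real.log (b u) * t) := by
        funext t; rw [Real.rpow_def_of_pos (hb u)]
      change AnalyticAt ℝ (fun t : ℝ => b u ^ t) x
      rw [this]
      exact (analyticAt_const.mul analyticAt_id).rexp
    · exact (Finset.sum_pos (fun u _ => mul_pos (ha u) (Real.rpow_pos_of_pos (hb u) x)) (hU j)).ne'
  have key := hf.eqOn_zero_of_preconnected_of_eventuallyEq_zero isPreconnected_univ
    (Set.mem_univ (0 : ℝ)) ?_
  · exact key (Set.mem_univ t)
  · filter_upwards [Metric.ball_mem_nhds (0 : ℝ) hη] with s hs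
    rw [mem_ball_zero_iff, Real.norm_eq_abs] at hs
    exact h0 s hs

end Pool.Agent.V5helper4.ZD
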