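import Pool.Agent.Q169.ZD.Stm

/-! # Jobs GAP and SMALL of project ZD -/

set_option autoImplicit false

namespace Pool.Agent.V5helper4.ZD

open Pool.Agent.Q169.ZD
open scoped InnerProductSpace

variable {V : Type} [NormedAddCommGroup V] [InnerProductSpace ℂ V] [CompleteSpace V]

theorem t_GAP (V : Type) [NormedAddCommGroup V] [InnerProductSpace ℂ V] [CompleteSpace V] :
    S_GAP V := by
  intro P D hPP hPa hPDP hDDP hex
  have hPD : ∀ x, P x = x → P (D x) = D x := by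
    intro x hx
    have := congrArg (fun T : V →L[ℂ] V => T x) hPDP
    simp only [ContinuousLinearMap.comp_apply, hx] at this
    exact this
  have hDD : ∀ x, P x = x → D (D x) = 0 := by
    intro x hx
    have := congrArg (fun T : V →L[ℂ] V => T x) hDDP
    simp only [ContinuousLinearMap.comp_apply, hx, ContinuousLinearMap.zero_apply] at this
    exact this
  let M : Submodule ℂ V := LinearMap.ker (P - ContinuousLinearMap.id ℂ V).toLinearMap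
  have hM : ∀ x, x ∈ M ↔ P x = x := by
    intro x
    change (P - ContinuousLinearMap.id ℂ V) x = 0 ↔ _
    rw [ContinuousLinearMap.sub_apply, ContinuousLinearMap.id_apply, sub_eq_zero]
  let Z : Submodule ℂ V := M ⊓ LinearMap.ker D.toLinearMap
  have hZ : ∀ x, x ∈ Z ↔ P x = x ∧ D x = 0 := by
    intro x
    rw [Submodule.mem_inf, hM]
    rfl
  have hMc : IsClosed (M : Set V) := ContinuousLinearMap.isClosed_ker (P - ContinuousLinearMap.id ℂ V)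
  have hZc : IsClosed (Z : Set V) := by
    change IsClosed ((M : Set V) ∩ (LinearMap.ker D.toLinearMap : Set V))
    exact hMc.inter (ContinuousLinearMap.isClosed_ker D)
  haveI : CompleteSpace M := hMc.completeSpace_coe
  haveI : CompleteSpace Z := hZc.completeSpace_coe
  let T : M →L[ℂ] Z := (D.comp M.subtypeL).codRestrict Z fun x => by
    rw [hZ]
    have hx : P (x : V) = x := (hM _).1 x.2
    exact ⟨hPD _ hx, hDD _ hx⟩
  have hT : ∀ x : M, ((T x : Z) : V) = D x := fun x => rfl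
  have hsurj : Function.Surjective T := by
    intro z
    obtain ⟨y, hy, hy2⟩ := hex z ((hZ _).1 z.2).1 ((hZ _).1 z.2).2
    exact ⟨⟨y, (hM _).2 hy⟩, Subtype.ext hy2⟩
  obtain ⟨C, hC, hpre⟩ := T.exists_preimage_norm_le hsurj
  have hpre' : ∀ z, P z = z → D z = 0 → ∃ y, P y = y ∧ D y = z ∧ ‖y‖ ≤ C * ‖z‖ := by
    intro z hz1 hz2
    obtain ⟨y, hy, hy2⟩ := hpre ⟨z, (hZ _).2 ⟨hz1, hz2⟩⟩
    refine ⟨y, (hM _).1 y.2, ?_, hy2⟩
    rw [← hT, hy]
  refine ⟨C * (1 + C * ‖D‖) + C, by positivity, ?_⟩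
  intro x hx
  obtain ⟨x', hx', hx'2, hx'3⟩ := hpre' (D x) (hPD x hx) (hDD x hx)
  obtain ⟨w, hw, hw2, hw3⟩ := hpre' (x - x') (by rw [map_sub, hx, hx']) (by rw [map_sub, hx'2, sub_self])
  by_cases h0 : ‖x‖ = 0
  · rw [h0]; positivity
  have hpos : 0 < ‖x‖ := lt_of_le_of_ne (norm_nonneg _) (Ne.symm h0)
  have hDx : ‖D x‖ ≤ ‖D‖ * ‖x‖ := D.le_opNorm x
  have hw4 : ‖w‖ ≤ C * (1 + C * ‖D‖) * ‖x‖ := by
    calc ‖w‖ ≤ C * ‖x - x'‖ := hw3
      _ ≤ C * (‖x‖ + ‖x'‖) := by gcongr; exact norm_sub_le _ _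
      _ ≤ C * (‖x‖ + C * ‖D x‖) := by gcongr
      _ ≤ C * (‖x‖ + C * (‖D‖ * ‖x‖)) := by gcongr
      _ = _ := by ring
  have hin : ⟪x, x⟫_ℂ = ⟪x, x'⟫_ℂ + ⟪P (ContinuousLinearMap.adjoint D x), w⟫_ℂ := by
    have e1 : x = x' + D w := by rw [hw2]; abel
    have e2 : ⟪P (ContinuousLinearMap.adjoint D x), w⟫_ℂ = ⟪x, D w⟫_ℂ := by
      have : P (ContinuousLinearMap.adjoint D x) = (ContinuousLinearMap.adjoint P) (ContinuousLinearMap.adjoint D x) := by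
        rw [hPa]
      rw [this, ContinuousLinearMap.adjoint_inner_left, hw, ContinuousLinearMap.adjoint_inner_left]
    rw [e2, ← inner_add_right, ← e1]
  have hkey : ‖x‖ * ‖x‖ ≤ ‖x‖ * (C * ‖D x‖) + ‖P (ContinuousLinearMap.adjoint D x)‖ *
      (C * (1 + C * ‖D‖) * ‖x‖) := by
    calc ‖x‖ * ‖x‖ = ‖⟪x, x⟫_ℂ‖ := by
          rw [inner_self_eq_norm_sq_to_K, norm_pow, RCLike.norm_ofReal, abs_of_nonneg (norm_nonneg x), sq]
      _ ≤ ‖⟪x, x'⟫_ℂ‖ + ‖⟪P (ContinuousLinearMap.adjoint D x), w⟫_ℂ‖ := by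
          rw [hin]; exact norm_add_le _ _
      _ ≤ ‖x‖ * ‖x'‖ + ‖P (ContinuousLinearMap.adjoint D x)‖ * ‖w‖ :=
          add_le_add (norm_inner_le_norm _ _) (norm_inner_le_norm _ _)
      _ ≤ _ := by gcongr
  have hkey2 : ‖x‖ ≤ C * ‖D x‖ + ‖P (ContinuousLinearMap.adjoint D x)‖ * (C * (1 + C * ‖D‖)) := by
    have : ‖x‖ * ‖x‖ ≤ ‖x‖ * (C * ‖D x‖ + ‖P (ContinuousLinearMap.adjoint D x)‖ * (C * (1 + C * ‖D‖))) := by
      calc _ ≤ _ := hkey
        _ = _ := by ring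
    exact le_of_mul_le_mul_left this hpos
  refine hkey2.trans ?_
  have a1 : 0 ≤ ‖D x‖ := norm_nonneg _
  have a2 : 0 ≤ ‖P (ContinuousLinearMap.adjoint D x)‖ := norm_nonneg _
  have a3 : 0 ≤ C * (1 + C * ‖D‖) := by positivity
  nlinarith [mul_nonneg a3 a1, mul_nonneg hC.le a2]

/-- the norm of a projection -/
lemma proj_norm (P : V →L[ℂ] V) (hPP : P ∘L P = P) (hPa : ContinuousLinearMap.adjoint P = P) (x : V) :
    ‖P x‖ ≤ ‖x‖ := by
  have hPPx : P (P x) = P x := congrArg (fun T : V →L[ℂ] V => T x) hPP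
  have h1 : ⟪P x, P x⟫_ℂ = ⟪x, P x⟫_ℂ := by
    have : ⟪ContinuousLinearMap.adjoint P x, P x⟫_ℂ = ⟪x, P (P x)⟫_ℂ :=
      ContinuousLinearMap.adjoint_inner_left _ _ _
    rw [hPa, hPPx] at this
    exact this
  have h2 : ‖P x‖ * ‖P x‖ ≤ ‖x‖ * ‖P x‖ := by
    calc ‖P x‖ * ‖P x‖ = ‖⟪P x, P x⟫_ℂ‖ := by
          rw [inner_self_eq_norm_sq_to_K, norm_pow, RCLike.norm_ofReal,
            abs_of_nonneg (norm_nonneg _), sq]
      _ = ‖⟪x, P x⟫_ℂ‖ := by rw [h1]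
      _ ≤ ‖x‖ * ‖P x‖ := norm_inner_le_norm _ _
  rcases (norm_nonneg (P x)).eq_or_lt with h | h
  · rw [← h]; exact norm_nonneg x
  · exact le_of_mul_le_mul_right h2 h

theorem t_SMALL (V : Type) [NormedAddCommGroup V] [InnerProductSpace ℂ V] [CompleteSpace V] :
    S_SMALL V := by
  intro P D hPP hPa hPDP K hK hgap
  set D' := ContinuousLinearMap.adjoint D with hD'
  have hPDP' : P ∘L D' ∘L P = P ∘L D' := by
    have := congrArg ContinuousLinearMap.adjoint hPDP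
    simp only [ContinuousLinearMap.adjoint_comp, hPa] at this
    exact this
  have hPPx : ∀ x, P (P x) = P x := fun x => congrArg (fun T : V →L[ℂ] V => T x) hPP
  have hPDPx : ∀ x, P (D (P x)) = D (P x) := fun x => congrArg (fun T : V →L[ℂ] V => T x) hPDP
  have hPDPx' : ∀ x, P (D' (P x)) = P (D' x) := fun x => congrArg (fun T : V →L[ℂ] V => T x) hPDP'
  have hPin : ∀ x y, ⟪P x, y⟫_ℂ = ⟪x, P y⟫_ℂ := by
    intro x y
    have := ContinuousLinearMap.adjoint_inner_left P y x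
    rwa [hPa] at this
  set Δ : V →L[ℂ] V := P ∘L D' ∘L D ∘L P + D ∘L P ∘L D' with hΔ
  have hΔx : ∀ x, Δ x = P (D' (D (P x))) + D (P (D' x)) := fun x => rfl
  have hΔP : ∀ x, Δ (P x) = Δ x := by
    intro x
    rw [hΔx, hΔx, hPPx, hPDPx']
  have hre : ∀ x, P x = x → (⟪Δ x, x⟫_ℂ).re = ‖D x‖ ^ 2 + ‖P (D' x)‖ ^ 2 := by
    intro x hx
    rw [hΔx, inner_add_left, hx, hPin, hx, hD', ContinuousLinearMap.adjoint_inner_left]
    have e2 : ⟪D (P (ContinuousLinearMap.adjoint D x)), x⟫_ℂ =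
        ⟪P (ContinuousLinearMap.adjoint D x), P (ContinuousLinearMap.adjoint D x)⟫_ℂ := by
      rw [← ContinuousLinearMap.adjoint_inner_right, hPin, hPin, hPPx]
    rw [e2, inner_self_eq_norm_sq_to_K, inner_self_eq_norm_sq_to_K]
    norm_cast
  set δ : ℝ := 1 / (2 * K ^ 2) with hδ
  have hδ0 : 0 < δ := by positivity
  have hlow : ∀ x, P x = x → δ * ‖x‖ ^ 2 ≤ (⟪Δ x, x⟫_ℂ).re := by
    intro x hx
    rw [hre x hx, hδ]
    have h1 := hgap x hx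
    have h2 : ‖x‖ ^ 2 ≤ K ^ 2 * (2 * (‖D x‖ ^ 2 + ‖P (D' x)‖ ^ 2)) := by
      calc ‖x‖ ^ 2 ≤ (K * (‖D x‖ + ‖P (D' x)‖)) ^ 2 := by gcongr
        _ = K ^ 2 * (‖D x‖ + ‖P (D' x)‖) ^ 2 := by ring
        _ ≤ _ := by
          gcongr
          nlinarith [sq_nonneg (‖D x‖ - ‖P (D' x)‖)]
    rw [div_mul_eq_mul_div, one_mul, div_le_iff₀ (by positivity)]
    nlinarith
  set L : ℝ := ‖Δ‖ + 1 with hL
  have hL0 : 0 < L := by positivity
  set c : ℝ := δ / L ^ 2 with hc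
  have hc0 : 0 < c := by positivity
  refine ⟨c, hc0.ne', ?_⟩
  set A : V →L[ℂ] V := P - (c : ℂ) • Δ with hA
  have hAP : ∀ x, A x = A (P x) := by
    intro x
    change P x - (c : ℂ) • Δ x = P (P x) - (c : ℂ) • Δ (P x)
    rw [hPPx, hΔP]
  have hAx : ∀ x, P x = x → ‖A x‖ ^ 2 ≤ (1 - δ ^ 2 / L ^ 2) * ‖x‖ ^ 2 := by
    intro x hx
    have e1 : A x = x - (c : ℂ) • Δ x := by
      change P x - (c : ℂ) • Δ x = _
      rw [hx]
    have e2 : ‖A x‖ ^ 2 = ‖x‖ ^ 2 - 2 * (c * (⟪Δ x, x⟫_ℂ).re) + (c * ‖Δ x‖) ^ 2 := by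
      rw [e1, norm_sub_sq (𝕜 := ℂ), inner_smul_right, norm_smul]
      congr 2
      · congr 1
        congr 1
        have : RCLike.re ((c : ℂ) * ⟪x, Δ x⟫_ℂ) = c * (⟪x, Δ x⟫_ℂ).re := by
          change ((c : ℂ) * ⟪x, Δ x⟫_ℂ).re = _
          rw [Complex.re_ofReal_mul]
        rw [this]
        congr 1
        rw [← inner_conj_symm]
        exact Complex.conj_re _
      · rw [Complex.norm_real, Real.norm_eq_abs, abs_of_pos hc0]
    have e3 : ‖Δ x‖ ≤ L * ‖x‖ := by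
      refine (Δ.le_opNorm x).trans ?_
      gcongr
      rw [hL]; linarith
    have e4 := hlow x hx
    calc ‖A x‖ ^ 2 = ‖x‖ ^ 2 - 2 * (c * (⟪Δ x, x⟫_ℂ).re) + (c * ‖Δ x‖) ^ 2 := e2
      _ ≤ ‖x‖ ^ 2 - 2 * (c * (δ * ‖x‖ ^ 2)) + (c * (L * ‖x‖)) ^ 2 := by gcongr
      _ = _ := by
        rw [hc]
        field_simp
        ring
  set κ : ℝ := Real.sqrt (max 0 (1 - δ ^ 2 / L ^ 2)) with hκ
  have hκ1 : κ < 1 := by
    rw [hκ, Real.sqrt_lt' one_pos, one_pow]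
    refine max_lt one_pos ?_
    have : 0 < δ ^ 2 / L ^ 2 := by positivity
    linarith
  refine lt_of_le_of_lt ?_ hκ1
  refine ContinuousLinearMap.opNorm_le_bound _ (Real.sqrt_nonneg _) fun x => ?_
  have h1 : ‖A x‖ ^ 2 ≤ (κ * ‖x‖) ^ 2 := by
    rw [hAP x]
    calc ‖A (P x)‖ ^ 2 ≤ (1 - δ ^ 2 / L ^ 2) * ‖P x‖ ^ 2 := hAx _ (hPPx x)
      _ ≤ max 0 (1 - δ ^ 2 / L ^ 2) * ‖P x‖ ^ 2 := by
          gcongr
          exact le_max_right _ _
      _ ≤ max 0 (1 - δ ^ 2 / L ^ 2) * ‖x‖ ^ 2 := by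
          gcongr
          exact proj_norm P hPP hPa x
      _ = (κ * ‖x‖) ^ 2 := by
          rw [mul_pow, hκ, Real.sq_sqrt (le_max_left _ _)]
  exact le_of_sq_le_sq h1 (by positivity)

end Pool.Agent.V5helper4.ZD
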