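import Pool.Agent.Q169.ZD.Stm

/-! # Job SUPER of project ZD: the supertrace of the projection vanishes -/

set_option autoImplicit false

namespace Pool.Agent.V5helper4.ZD

open Pool.Agent.Q169.ZD Filter Topology

lemma super_ring {R : Type*} [NormedRing R] [NormedAlgebra ℂ R] (𝒜 : Set R) (τ : R →ₗ[ℂ] ℂ)
    (K : ℝ) (hadd : ∀ x ∈ 𝒜, ∀ y ∈ 𝒜, x + y ∈ 𝒜) (hmul : ∀ x ∈ 𝒜, ∀ y ∈ 𝒜, x * y ∈ 𝒜)
    (hsm : ∀ (a : ℂ), ∀ x ∈ 𝒜, a • x ∈ 𝒜)
    (htr : ∀ x ∈ 𝒜, ∀ y ∈ 𝒜, τ (x * y) = τ (y * x)) (hK : ∀ x, ‖τ x‖ ≤ K * ‖x‖)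
    (P D D' ε : R) (hP : P ∈ 𝒜) (hD : D ∈ 𝒜) (hD' : D' ∈ 𝒜) (hε : ε ∈ 𝒜)
    (hPP : P * P = P) (hPDP : P * (D * P) = D * P) (hPDP' : P * (D' * P) = P * D')
    (hDDP : D * (D * P) = 0) (hPDD : P * (D' * D') = 0) (hεP : ε * P = P * ε)
    (hεD : ε * D = -(D * ε)) (hεD' : ε * D' = -(D' * ε)) (c : ℂ)
    (hc : ‖P - c • (P * (D' * (D * P)) + D * (P * D'))‖ < 1) : τ (ε * P) = 0 := by
  set d := D * P with hd
  set d' := P * D' with hd'
  have hPd : P * d = d := hPDP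
  have hdP : d * P = d := by rw [hd, mul_assoc, hPP]
  have hPd' : P * d' = d' := by rw [hd', ← mul_assoc, hPP]
  have hd'P : d' * P = d' := by rw [hd', mul_assoc, hPDP']
  have hdd : d * d = 0 := by
    calc d * d = D * (P * d) := by rw [hd]; simp only [mul_assoc]
      _ = 0 := by rw [hPd]; exact hDDP
  have hdd' : d' * d' = 0 := by
    calc d' * d' = (d' * P) * D' := by simp only [hd', mul_assoc]
      _ = 0 := by rw [hd'P, hd', mul_assoc]; exact hPDD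
  have hΔ : P * (D' * d) + D * (P * D') = d' * d + d * d' := by
    congr 1
    · rw [hd', mul_assoc]
    · rw [hd, mul_assoc, ← mul_assoc P P D', hPP] 
      
  have hX : P - c • (P * (D' * (D * P)) + D * (P * D')) = P - c • (d' * d + d * d') := by
    rw [← hΔ]
  rw [hX] at hc
  set X := P - c • (d' * d + d * d') with hXd
  have hd𝒜 : d ∈ 𝒜 := hmul _ hD _ hP
  have hd'𝒜 : d' ∈ 𝒜 := hmul _ hP _ hD'
  have hX𝒜 : X ∈ 𝒜 := by
    rw [hXd, sub_eq_add_neg, ← neg_smul]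
    exact hadd _ hP _ (hsm _ _ (hadd _ (hmul _ hd'𝒜 _ hd𝒜) _ (hmul _ hd𝒜 _ hd'𝒜)))
  have hXdc : X * d = d * X := by
    rw [hXd, sub_mul, mul_sub, hPd, hdP, smul_mul_assoc, mul_smul_comm, add_mul, mul_add]
    congr 2
    rw [mul_assoc d' d d, hdd, mul_zero, zero_add, ← mul_assoc d d d', hdd, zero_mul, add_zero,
      mul_assoc]
  have hXdc' : X * d' = d' * X := by
    rw [hXd, sub_mul, mul_sub, hPd', hd'P, smul_mul_assoc, mul_smul_comm, add_mul, mul_add]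
    congr 2
    rw [mul_assoc d d' d', hdd', mul_zero, add_zero, ← mul_assoc d' d' d, hdd', zero_mul, zero_add,
      mul_assoc]
  have hXP : X * P = X := by
    rw [hXd, sub_mul, hPP, smul_mul_assoc, add_mul, mul_assoc d' d P, hdP, mul_assoc d d' P, hd'P]
  let Y : ℕ → R := fun n => Nat.rec P (fun _ y => y * X) n
  have hY0 : Y 0 = P := rfl
  have hYs : ∀ n, Y (n + 1) = Y n * X := fun n => rfl
  have hY𝒜 : ∀ n, Y n ∈ 𝒜 := by
    intro n
    induction n with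
    | zero => exact hP
    | succ n ih => exact hmul _ ih _ hX𝒜
  have hYd' : ∀ n, Y n * d' = d' * Y n := by
    intro n
    induction n with
    | zero => rw [hY0, hPd', hd'P]
    | succ n ih => rw [hYs, mul_assoc, hXdc', ← mul_assoc, ih, mul_assoc]
  have hYP : ∀ n, Y n * P = Y n := by
    intro n
    cases n with
    | zero => rw [hY0, hPP]
    | succ n => rw [hYs, mul_assoc, hXP]
  have hεd' : d' * ε = -(ε * d') := by
    rw [hd', ← mul_assoc, hεP, mul_assoc, mul_assoc, hεD', mul_neg, neg_neg]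
  have hstep : ∀ n, τ (ε * Y n) = τ (ε * Y (n + 1)) := by
    intro n
    have e1 : τ (ε * Y n * d * d') = - τ (ε * Y n * (d' * d)) := by
      rw [htr _ (hmul _ (hmul _ hε _ (hY𝒜 n)) _ hd𝒜) _ hd'𝒜, ← map_neg]
      congr 1
      calc d' * (ε * Y n * d) = (d' * ε) * (Y n * d) := by simp only [mul_assoc]
        _ = -(ε * (d' * Y n) * d) := by rw [hεd', neg_mul]; simp only [mul_assoc]
        _ = -(ε * Y n * (d' * d)) := by rw [← hYd']; simp only [mul_assoc]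
    have e2 : ε * Y n - ε * Y (n + 1) = c • (ε * Y n * (d' * d) + ε * Y n * d * d') := by
      have : Y (n + 1) = Y n - c • (Y n * (d' * d + d * d')) := by
        rw [hYs, hXd, mul_sub, hYP, mul_smul_comm]
      rw [this, mul_sub, sub_sub_cancel, mul_smul_comm]
      congr 1
      simp only [mul_add, mul_assoc]
    have e3 : τ (ε * Y n) - τ (ε * Y (n + 1)) = 0 := by
      rw [← map_sub, e2, map_smul, map_add, e1, add_neg_cancel, smul_zero]
    exact sub_eq_zero.1 e3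
  have hconst : ∀ n, τ (ε * Y n) = τ (ε * P) := by
    intro n
    induction n with
    | zero => rw [hY0]
    | succ n ih => rw [← hstep, ih]
  have hYn : ∀ n, ‖Y n‖ ≤ ‖P‖ * ‖X‖ ^ n := by
    intro n
    induction n with
    | zero => rw [hY0, pow_zero, mul_one]
    | succ n ih =>
      rw [hYs, pow_succ, ← mul_assoc]
      exact (norm_mul_le _ _).trans (mul_le_mul_of_nonneg_right ih (norm_nonneg _))
  have hbd : ∀ n, ‖τ (ε * P)‖ ≤ (|K| * ‖ε‖ * ‖P‖) * ‖X‖ ^ n := by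
    intro n
    rw [← hconst n]
    calc ‖τ (ε * Y n)‖ ≤ K * ‖ε * Y n‖ := hK _
      _ ≤ |K| * ‖ε * Y n‖ := mul_le_mul_of_nonneg_right (le_abs_self K) (norm_nonneg _)
      _ ≤ |K| * (‖ε‖ * ‖Y n‖) := mul_le_mul_of_nonneg_left (norm_mul_le _ _) (abs_nonneg K)
      _ ≤ |K| * (‖ε‖ * (‖P‖ * ‖X‖ ^ n)) := by
          gcongr
          exact hYn n
      _ = _ := by ring
  have hlim : Tendsto (fun n : ℕ => (|K| * ‖ε‖ * ‖P‖) * ‖X‖ ^ n) atTop (𝓝 ((|K| * ‖ε‖ * ‖P‖) * 0)) :=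
    (tendsto_pow_atTop_nhds_zero_of_lt_one (norm_nonneg _) hc).const_mul _
  rw [mul_zero] at hlim
  have := ge_of_tendsto' hlim hbd
  exact norm_le_zero_iff.1 this

theorem t_SUPER (V : Type) [NormedAddCommGroup V] [NormedSpace ℂ V] : S_SUPER V := by
  intro 𝒜 τ K hadd hmul hsm htr hK P D D' ε hP hD hD' hε h1 h2 h3 h4 h5 h6 h7 h8 c hc
  exact super_ring 𝒜 τ K hadd hmul hsm htr hK P D D' ε hP hD hD' hε h1 h2 h3 h4 h5 h6 h7 h8 c hc

end Pool.Agent.V5helper4.ZD
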